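import Pool.Agent.R239.Transp.Main

/-!
A bounded open set and a phase-space point at which the `lam`-derivative of the solution of the
transport equation is negative.
-/

open Set Topology MeasureTheory Metric

namespace Pool.Agent.Results.MP_f7849a_an.NegativeDerivative

/-- Three-dimensional Euclidean space. -/
abbrev E3 : Type := EuclideanSpace ℝ (Fin 3)

/-- The unit sphere of directions. -/
abbrev S2 : Type := sphere (0 : E3) 1

/-- Surface measure on the unit sphere (its total mass is `4 π`). -/
noncomputable def surface : Measure S2 := (volume : Measure E3).toSphere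

/-- The first-exit distance `inf {t > 0 : r + t ω ∉ V}`. -/
noncomputable def exitDist (V : Set E3) (r : E3) (ω : S2) : ℝ :=
  sInf {t : ℝ | 0 < t ∧ r + t • (ω : E3) ∉ V}

/-- `M` is a bounded measurable solution on `V × S²` of the integral equation with parameter
`lam`. -/
structure IsSolution (V : Set E3) (lam : ℝ) (M : E3 × S2 → ℝ) : Prop where
  measurable : Measurable fun p : ↥(V ×ˢ (univ : Set S2)) => M p
  bounded : ∃ C : ℝ, ∀ r ∈ V, ∀ ω : S2, |M (r, ω)| ≤ C
  equation : ∀ r ∈ V, ∀ ω : S2, M (r, ω) = 1 - Real.exp (-exitDist V r ω) +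
    lam / (4 * Real.pi) * ∫ x in (0 : ℝ)..exitDist V r ω,
      Real.exp (-(lam * x)) * ∫ ω' : S2, M (r + x • (ω : E3), ω') ∂surface

open R239.Transp

lemma exitDist_eq (V : Set E3) (r : E3) (ω : S2) : exitDist V r ω = exitD V r ω := rfl

lemma surface_univ : surface univ = ENNReal.ofReal (4 * Real.pi) := sig_univ

section

variable {V : Set E3} {R : ℝ} (hV : DiamLt V R) (hVo : IsOpen V)

/-- The kernel average of a solution. -/
lemma rhs_eq {lam : ℝ} {M : E3 × S2 → ℝ} {f : E3 → ℝ}
    (hf : ∀ r ∈ V, f r = ∫ w, M (r, w) ∂pr) (r : E3) (w : S2) :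
    lam / (4 * Real.pi) * ∫ x in (0 : ℝ)..exitDist V r w,
      Real.exp (-(lam * x)) * ∫ w' : S2, M (r + x • (w : E3), w') ∂surface =
    ray V (kl lam) f r w := by
  unfold ray
  rw [← intervalIntegral.integral_const_mul, exitDist_eq,
    intervalIntegral.integral_of_le (exitD_nonneg _ _ _),
    intervalIntegral.integral_of_le (exitD_nonneg _ _ _), integral_Ioc_eq_integral_Ioo,
    integral_Ioc_eq_integral_Ioo]
  apply setIntegral_congr_fun measurableSet_Ioo
  intro x hx
  have h1 := mem_of_lt_exitD (V := V) hx.1 hx.2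
  show lam / (4 * Real.pi) * (Real.exp (-(lam * x)) * ∫ w' : S2, M (r + x • (w : E3), w') ∂surface) =
    kl lam x * f (r + x • (w : E3))
  rw [hf _ h1, integral_pr]
  unfold kl surface sig
  ring

include hV hVo in
/-- The solution built from the averaged equation. -/
lemma isSolution_of_avg {lam : ℝ} {m : E3 → ℝ} (hm : IsAvg V lam m) :
    IsSolution V lam fun p => 1 - Real.exp (-exitD V p.1 p.2) + ray V (kl lam) m p.1 p.2 := by
  obtain ⟨C, hC⟩ := hm.bdd
  have hmeas : Measurable fun p : E3 × S2 => 1 - Real.exp (-exitD V p.1 p.2) +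
      ray V (kl lam) m p.1 p.2 :=
    (measurable_src_integrand hV hVo).add (measurable_ray hV hVo (continuous_kl lam) hm.meas)
  obtain ⟨B, hB⟩ := (isCompact_Icc (a := (0 : ℝ)) (b := R)).exists_bound_of_continuousOn
    (continuous_kl lam).continuousOn
  refine ⟨hmeas.comp measurable_subtype_coe, ⟨1 + C * B * R, ?_⟩, ?_⟩
  · intro r _ w
    have h1 := ray_bound_crude hV (fun x h1 h2 => hB x ⟨h1, h2⟩) hC r w
    obtain ⟨h2, h3⟩ := src_integrand_bound V r w
    calc |1 - Real.exp (-exitD V r w) + ray V (kl lam) m r w|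
        ≤ |1 - Real.exp (-exitD V r w)| + |ray V (kl lam) m r w| := abs_add_le _ _
      _ ≤ 1 + C * B * R := by rw [abs_of_nonneg h2]; linarith
  · intro r _ w
    have h1 := rhs_eq (V := V) (lam := lam) (f := m)
      (M := fun p => 1 - Real.exp (-exitD V p.1 p.2) + ray V (kl lam) m p.1 p.2) (by
        intro r _
        rw [hm.eq r]
        show src V r + op V (kl lam) m r = _
        unfold src op
        rw [← integral_add (integrable_src hV hVo r)
          (integrable_ray hV hVo (continuous_kl lam) hm.meas hC r)]) r w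
    show 1 - Real.exp (-exitD V r w) + ray V (kl lam) m r w = _
    rw [exitDist_eq]
    congr 1
    rw [← h1]
    rfl

include hV hVo in
/-- Every bounded measurable solution is the one built from a given averaged solution. -/
lemma solution_unique {lam : ℝ} (hl : 0 < lam) {m : E3 → ℝ} (hm : IsAvg V lam m)
    {M : E3 × S2 → ℝ} (hM : IsSolution V lam M) (r : E3) (hr : r ∈ V) (w : S2) :
    M (r, w) = 1 - Real.exp (-exitD V r w) + ray V (kl lam) m r w := by
  obtain ⟨C, hC⟩ := hM.bounded
  obtain ⟨Cm, hCm⟩ := hm.bdd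
  have hVm : MeasurableSet V := hVo.measurableSet
  have hVS : MeasurableSet (V ×ˢ (univ : Set S2)) := hVm.prod MeasurableSet.univ
  set M' : E3 × S2 → ℝ := (V ×ˢ (univ : Set S2)).indicator M with hM'
  have hM'm : Measurable M' := by
    apply measurable_of_restrict_of_restrict_compl hVS
    · show Measurable fun p : ↥(V ×ˢ (univ : Set S2)) => M' p
      have : (fun p : ↥(V ×ˢ (univ : Set S2)) => M' p) =
          fun p : ↥(V ×ˢ (univ : Set S2)) => M p := by
        ext p
        exact indicator_of_mem p.2 _
      rw [this]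
      exact hM.measurable
    · show Measurable fun p : ↥(V ×ˢ (univ : Set S2))ᶜ => M' p
      have : (fun p : ↥(V ×ˢ (univ : Set S2))ᶜ => M' p) = fun _ => 0 := by
        ext p
        exact indicator_of_notMem p.2 _
      rw [this]
      exact measurable_const
  have hM'eq : ∀ r ∈ V, ∀ w, M' (r, w) = M (r, w) := fun r hr w =>
    indicator_of_mem (show (r, w) ∈ V ×ˢ (univ : Set S2) from ⟨hr, mem_univ _⟩) _
  have hM'0 : ∀ r, r ∉ V → ∀ w, M' (r, w) = 0 := fun r hr w =>
    indicator_of_notMem (fun h => hr h.1) _
  have hC0 : 0 ≤ C := (abs_nonneg _).trans (hC r hr w)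
  have hM'b : ∀ r w, |M' (r, w)| ≤ C := by
    intro r w
    by_cases h : r ∈ V
    · rw [hM'eq r h]; exact hC r h w
    · rw [hM'0 r h, abs_zero]; exact hC0
  set f : E3 → ℝ := fun r => ∫ w, M' (r, w) ∂pr with hf
  have hfm : Measurable f := (hM'm.stronglyMeasurable.integral_prod_right' (ν := pr)).measurable
  have hfb : ∀ r, |f r| ≤ C := by
    intro r
    have := norm_integral_le_of_norm_le_const (μ := pr) (f := fun w => M' (r, w)) (C := C)
      (Filter.Eventually.of_forall fun w => hM'b r w)
    simpa using this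
  have hfV : ∀ r ∈ V, f r = ∫ w, M (r, w) ∂pr := by
    intro r hr
    simp only [hf]
    congr 1
    ext w
    exact hM'eq r hr w
  have hMeq : ∀ r ∈ V, ∀ w, M (r, w) = 1 - Real.exp (-exitD V r w) + ray V (kl lam) f r w := by
    intro r hr w
    rw [hM.equation r hr w, rhs_eq hfV, exitDist_eq]
  -- the difference of the averages vanishes on V
  set d : E3 → ℝ := V.indicator (fun r => f r - m r) with hd
  have hdm : Measurable d := (hfm.sub hm.meas).indicator hVm
  have hdV : ∀ r ∈ V, d r = f r - m r := fun r hr => indicator_of_mem hr _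
  have hd0 : ∀ r, r ∉ V → d r = 0 := fun r hr => indicator_of_notMem hr _
  have hfmb : ∀ r, |f r - m r| ≤ C + Cm := fun r =>
    (abs_sub _ _).trans (add_le_add (hfb r) (hCm r))
  have hrd : ∀ r w, ray V (kl lam) f r w - ray V (kl lam) m r w = ray V (kl lam) d r w := by
    intro r w
    have e1 : ray V (kl lam) d r w = ray V (kl lam) (fun r => f r - m r) r w :=
      ray_congr r w fun x h1 h2 => hdV _ (mem_of_lt_exitD h1 h2)
    have e2 : ray V (kl lam) f r w = ray V (kl lam) (fun r => f r - m r) r w + ray V (kl lam) m r w := by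
      have := ray_add (V := V) (f := fun r => f r - m r) (g := m) (continuous_kl lam)
        (hfm.sub hm.meas) hm.meas hfmb hCm r w
      rw [← this]
      congr 1
      funext r
      ring
    rw [e1, e2]
    ring
  have hdzero : ∀ r, |d r| ≤ 0 := by
    intro r
    have h := sup_lemma (f := d) (C0 := C + Cm) (a := 0) (q := 1 - Real.exp (-(lam * R))) (by
      intro r
      by_cases h : r ∈ V
      · rw [hdV r h]; exact hfmb r
      · rw [hd0 r h, abs_zero]
        exact (abs_nonneg _).trans (hfmb r)) (by linarith [Real.exp_pos (-(lam * R))]) (by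
      intro D hD r
      have hD0 : 0 ≤ D := (abs_nonneg _).trans (hD r)
      have he : Real.exp (-(lam * R)) ≤ 1 := Real.exp_le_one_iff.mpr (by
        have := mul_pos hl hV.1
        linarith)
      by_cases h : r ∈ V
      · rw [zero_add]
        have e : d r = op V (kl lam) d r := by
          rw [hdV r h, hfV r h, hm.eq r]
          have i1 := integrable_src hV hVo r
          have i2 := integrable_ray hV hVo (continuous_kl lam) hfm hfb r
          have i3 := integrable_ray hV hVo (continuous_kl lam) hm.meas hCm r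
          have e1 : ∫ w, M (r, w) ∂pr = src V r + op V (kl lam) f r := by
            unfold src op
            rw [← integral_add i1 i2]
            congr 1
            ext w
            exact hMeq r h w
          rw [e1]
          have e2 : op V (kl lam) f r - op V (kl lam) m r = op V (kl lam) d r := by
            unfold op
            rw [← integral_sub i2 i3]
            congr 1
            ext w
            exact hrd r w
          linarith
        rw [e]
        exact op_kl_bound hV hl d D hD r
      · rw [hd0 r h, abs_zero, zero_add]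
        exact mul_nonneg (by linarith) hD0) r
    rw [zero_div] at h
    exact h
  rw [hMeq r hr w]
  have e : ray V (kl lam) d r w = 0 := by
    have e1 : ray V (kl lam) d r w = ray V (kl lam) (fun r => (0 : ℝ) * d r) r w :=
      ray_congr r w fun x _ _ => by
        have := hdzero (r + x • (w : E3))
        rw [abs_nonpos_iff.mp this]; simp
    rw [e1, ray_smul, zero_mul]
  have := hrd r w
  linarith

end

/-- There are a bounded open set `V` (with unique solvability of the equation for every positive
`lam`) and a phase-space point at which the solution has a negative `lam`-derivative at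
`lam = 1`. -/
theorem result : ∃ V : Set E3, IsOpen V ∧ Bornology.IsBounded V ∧
    (∀ lam : ℝ, 0 < lam → ∃ M, IsSolution V lam M) ∧
    (∀ lam : ℝ, 0 < lam → ∀ M M', IsSolution V lam M → IsSolution V lam M' →
      ∀ r ∈ V, ∀ ω : S2, M (r, ω) = M' (r, ω)) ∧
    ∃ r ∈ V, ∃ ω : S2, ∀ M : ℝ → E3 × S2 → ℝ, (∀ lam : ℝ, 0 < lam → IsSolution V lam (M lam)) →
      ∃ d : ℝ, d < 0 ∧ HasDerivAt (fun lam => M lam (r, ω)) d 1 := by
  obtain ⟨l, ρ, hl, hρ0, hρ1, hsign⟩ := sign_main
  have hV := diam_dom hl hρ1
  have hVo := isOpen_dom l ρ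
  have h0 : (0 : E3) ∈ dom l ρ := by
    left
    refine ⟨by simp, by simp; linarith, by simp, by simpa using hρ0⟩
  have hex : ∀ lam : ℝ, 0 < lam → ∃ m, IsAvg (dom l ρ) lam m ∧ ∀ r, 0 ≤ m r := fun lam h =>
    exists_avg hV hVo h
  refine ⟨dom l ρ, hVo, ?_, ?_, ?_, 0, h0, w0, ?_⟩
  · rw [Metric.isBounded_iff]
    exact ⟨l + 8, fun p hp q hq => (hV.2 p hp q hq).le⟩
  · intro lam hlam
    obtain ⟨m, hm, -⟩ := hex lam hlam
    exact ⟨_, isSolution_of_avg hV hVo hm⟩
  · intro lam hlam M M' hM hM' r hr ω
    obtain ⟨m, hm, -⟩ := hex lam hlam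
    rw [solution_unique hV hVo hlam hm hM r hr ω, solution_unique hV hVo hlam hm hM' r hr ω]
  · intro M hM
    choose! m hm hm0 using hex
    obtain ⟨md, md1, md2, md3, md4⟩ := deriv_main hV hVo m hm
    refine ⟨_, hsign (m 1) md (hm 1 one_pos) (hm0 1 one_pos) md1 md2 md3, ?_⟩
    have h1 := (md4 0 w0).const_add (1 - Real.exp (-exitD (dom l ρ) 0 w0))
    refine h1.congr_of_eventuallyEq ?_
    filter_upwards [lt_mem_nhds (show (0 : ℝ) < 1 by norm_num)] with lam hlam
    exact solution_unique hV hVo hlam (hm lam hlam) (hM lam hlam) 0 h0 w0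

end Pool.Agent.Results.MP_f7849a_an.NegativeDerivative
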